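import Pool.Agent.K1H63.Boch.Core

/-!
# Closed Einstein six-manifolds of positive scalar curvature with an upper curvature bound

Let `(M, g)` be a closed Riemannian manifold of dimension six with `Ric = 5 κ g`, `κ > 0`, all of whose
sectional curvatures are at most `k κ` (no lower bound). Then the Gauss-Bonnet-Chern integral of `M`
satisfies

  `∫ gbc ≥ (1450 - 3145 k + 2352 k² - 576 k³) / 81 · roundGB κ · vol`,

where `roundGB κ` is the integrand for constant curvature `κ`; the constant is positive for
`k ≤ 1.93` (and it is `1` for `k = 1`). So a closed six-manifold whose Euler characteristic is not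
positive (for instance a connected sum of copies of `S³ × S³`) has no Einstein metric with
`Ric = 5 κ g` and `K ≤ 1.93 κ`.

The integrand itself is not positive under this hypothesis: the sharp pointwise bound (the starting
result `OneSidedDimSix` of this problem) is positive only for `k ≤ 1.42`. The proof uses the field
equation once more, through the second Bianchi identity: the curvature tensor of an Einstein metric
satisfies the Bochner formula `∫ (R_{abcd} R_{cdef} R_{efab} + 4 R_{acbd} R_{cedf} R_{eafb}
- 10 κ |R|²) = ∫ |∇R|²`, so a nonnegative multiple of the left hand side may be subtracted from the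
integrand. The difference `gb - 16 (...)` is `64` times the average over the unit vectors `x` of
`1250 - 40 tr J² - 48 ∑ λ_a λ_b K (v_a, v_b)` (`κ = 1`), `J` being the Jacobi operator of `x`, with
eigenvectors `v_a` and eigenvalues `λ_a`, and this function of `x` is bounded below by an explicit
identity whose terms are squares times `k - λ_a` or `k - K (v_a, v_b)`.

Modelling. `FrameCalculus P μ` is the differential calculus on the orthonormal frame bundle `P` of a
closed Riemannian manifold of dimension six: an algebra `S` of integrable real functions on `P` (the
smooth functions), derivations `H i` of `S` (the canonical horizontal vector fields) and `V a b` (the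
fundamental vertical vector fields), and elements `R a b c d` of `S` (the components of the curvature
tensor in the frame), with the algebraic symmetries of `R`, the second Bianchi identity, Cartan's
structure equation for `[H i, H j]`, the action of `V a b` on `R`, and the divergence theorem
`∫ H i f dμ = 0`. All of these are standard facts for closed Riemannian manifolds; that they hold there,
and the Gauss-Bonnet-Chern theorem, are not formalised. The Bochner formula is proved here from them
(`Pool/Agent/K1H63/Boch/`).

The averages over the sphere and the formula for the integrand in terms of cubic invariants come from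
`Pool/Agent/H933R2/Hopf/`, the eigenframe computation from `Pool/Agent/W714/HE/` (both in the starting
repository).
-/

namespace Pool.Agent.Results.MP_ebfab8_gt.EinsteinBochner

open Hopf6 MeasureTheory Pool.Agent.K1H63.Boch

/-- Closed Einstein six-manifolds of positive scalar curvature with an upper curvature bound. -/
theorem result :
    -- the integrated bound
    (∀ (P : Type) [MeasurableSpace P] (μ : Measure P) [IsFiniteMeasure μ] (F : FrameCalculus P μ)
      (κ k : ℝ), 0 < κ → (∀ p, IsEinstein (F.T p) (5 * κ)) → (∀ p, SecLE (F.T p) (k * κ)) →
      (1450 - 3145 * k + 2352 * k ^ 2 - 576 * k ^ 3) / 81 * roundGB κ * μ.real Set.univ ≤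
        ∫ p, F.gbc p ∂μ) ∧
    -- the constant is positive up to `k = 1.93`
    (∀ k : ℝ, k ≤ 193 / 100 → 0 < (1450 - 3145 * k + 2352 * k ^ 2 - 576 * k ^ 3) / 81) ∧
    -- the sign of the Gauss-Bonnet-Chern integral
    (∀ (P : Type) [MeasurableSpace P] (μ : Measure P) [IsFiniteMeasure μ] (F : FrameCalculus P μ)
      (κ : ℝ), μ ≠ 0 → 0 < κ → (∀ p, IsEinstein (F.T p) (5 * κ)) →
      (∀ p, SecLE (F.T p) (193 / 100 * κ)) → 0 < ∫ p, F.gbc p ∂μ) := by
  have hphi : ∀ k : ℝ, (1450 - 3145 * k + 2352 * k ^ 2 - 576 * k ^ 3) / 81 = phi k / 90 := by
    intro k
    unfold phi
    ring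
  have hpos : ∀ k : ℝ, k ≤ 193 / 100 →
      0 < (1450 - 3145 * k + 2352 * k ^ 2 - 576 * k ^ 3) / 81 := by
    intro k hk
    have h1 : 0 ≤ (193 / 100 - k) * (k - 108 / 100) ^ 2 :=
      mul_nonneg (by linarith) (sq_nonneg _)
    nlinarith [h1, hk]
  refine ⟨?_, hpos, ?_⟩
  · intro P _ μ _ F κ k hκ hE h
    rw [hphi]
    exact F.integral_up hκ hE h
  · intro P _ μ _ F κ hμ hκ hE h
    have h1 := F.integral_up hκ hE h
    rw [← hphi] at h1
    have h2 := hpos (193 / 100) le_rfl
    have h3 : 0 < roundGB κ := by
      have hpi := Real.pi_pos
      unfold roundGB
      positivity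
    have h4 : 0 < μ.real Set.univ := by
      rw [measureReal_def]
      refine ENNReal.toReal_pos ?_ (measure_ne_top μ _)
      exact fun h0 => hμ (Measure.measure_univ_eq_zero.1 h0)
    exact lt_of_lt_of_le (mul_pos (mul_pos h2 h3) h4) h1

end Pool.Agent.Results.MP_ebfab8_gt.EinsteinBochner
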