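import Pool.Agent.K1H63.EB.CertAll
import Pool.Agent.K1H63.EB.Struct

/-!
# Sharp upper curvature pinching of Einstein manifolds in dimension eight, and dimensions 5 to 11

Let `(M, g)` be a closed Riemannian manifold of dimension `n = m + 1`, `5 ≤ n ≤ 11`, with
`Ric = (n - 1) κ g`, `κ > 0`, all of whose sectional curvatures are at most
`8 (n - 1) / (5 n - 8) · κ` (no lower bound). Then its curvature tensor is parallel, `∇R = 0`, so
`(M, g)` is locally symmetric; and either the curvature is constant, or `n` is even and at every point
the Jacobi operators of all unit vectors `x` have the two eigenvalues `b = 8 (n - 1) / (5 n - 8) κ`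
and `b / 4` on the orthogonal complement of `x`, as in the projective planes.

In dimension eight the bound is `7/4 κ`, a quarter of the Ricci curvature, and it is sharp: it is
attained by the quaternionic projective plane `ℍP²` (sectional curvatures between `7/16 κ` and
`7/4 κ`), which is not of constant curvature. So a closed manifold of dimension eight which is not
locally isometric to the sphere or to `ℍP²` has no Einstein metric with `Ric = 7 κ > 0` and
`K ≤ 7/4 κ`.

Proof. The curvature tensor of an Einstein metric satisfies the Bochner formula
`∫ B = ∫ |∇R|² ≥ 0`, `B = R_{abcd} R_{cdef} R_{efab} + 4 R_{acbd} R_{cedf} R_{eafb}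
- 2 (n - 1) κ |R|²`. With `κ = 1`, a negative multiple of `B` is the average over the unit vectors `x`
of a function of the eigenvalues `λ_i` of the Jacobi operator of `x` and the sectional curvatures
`K_ij` of the planes of its eigenvectors. With `x_i = b - λ_i ≥ 0`, `k_ij = b - K_ij ≥ 0` (row sums
`∑ x_j - x_i`) it is

  `(n + 4) ∑ x_i³ + (2 (n - 4) / n) (∑ x_i) ∑ x_i² + 5 ∑ x_i x_j k_ij - (8 / n) (∑ x_i)³`.

The minimum of `∑ x_i x_j k_ij` for given row sums is bounded below by the antimonotone coupling
(explicit dual variables), and the resulting piecewise cubic in the sorted `x_i` is nonnegative by an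
explicit sum of squares certificate for each `n`, which also gives the two equality cases
(`x` constant, or half of the `n` values `0, x_1, …, x_{n-1}` zero and the others equal). The function
vanishes at every unit vector once `B = 0` (a quadrature formula on the sphere with a prescribed node),
and the two cases cannot both occur on a connected sphere.

Modelling. `FrameCalc n P μ` is the differential calculus on the orthonormal frame bundle `P` of a
closed Riemannian manifold of dimension `n`: an algebra `S` of continuous integrable real functions on
`P` (the smooth functions), derivations `H i` of `S` (the canonical horizontal vector fields) and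
`V a b` (the fundamental vertical vector fields), and elements `R a b c d` of `S` (the components of
the curvature tensor in the frame), with the algebraic symmetries of `R`, the second Bianchi identity,
Cartan's structure equation for `[H i, H j]`, the action of `V a b` on `R`, and the divergence theorem
`∫ H i f dμ = 0`. All of these are standard facts for closed Riemannian manifolds (`P` is compact,
connected if frames of one orientation are taken, and `μ` is the natural smooth measure, positive on
open sets); that they hold there is not formalised. `H i (R a b c d)` are the components of `∇R`. The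
Bochner formula, the averages over the sphere and the eigenframe computation are proved from them in
`Pool/Agent/K1H63/EB/`.
-/

namespace Pool.Agent.Results.MP_ebfab8_gt.SharpPinching

open MeasureTheory Pool.Agent.K1H63.EB

/-- Closed Einstein manifolds of dimension `m + 1`, `4 ≤ m ≤ 10`, with `Ric = m κ`, `κ > 0`, and
sectional curvatures at most `8 m / (5 m - 3) · κ`. -/
theorem result (m : ℕ) (h4 : 4 ≤ m) (h10 : m ≤ 10) (P : Type) [TopologicalSpace P]
    [PreconnectedSpace P] [MeasurableSpace P] (μ : Measure P) [μ.IsOpenPosMeasure]
    (F : FrameCalc (m + 1) P μ) (κ : ℝ) (hκ : 0 < κ) (hE : ∀ p, IsEinstein (F.T p) (m * κ))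
    (hK : ∀ p, SecLE (F.T p) (8 * m / (5 * m - 3) * κ)) :
    -- the curvature tensor is parallel
    (∀ i a b c d p, F.H i (F.R a b c d) p = 0) ∧
    -- constant curvature, or the Jacobi operators are those of a projective plane
    ((∀ p, IsConst (F.T p) κ) ∨
      (Odd m ∧ ∀ p, TwoEig (F.T p) (8 * m / (5 * m - 3) * κ))) ∧
    -- constant curvature if the inequality is uniformly strict
    (∀ b < (8 * m / (5 * m - 3) : ℝ), (∀ p, SecLE (F.T p) (b * κ)) → ∀ p, IsConst (F.T p) κ) :=
  ⟨(F.sharp (by omega) (cert_all h4 h10) hκ hE hK).1,
    F.sharp_connected (by omega) (cert_all h4 h10) hκ hE hK,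
    fun b hb hKb => F.rigid (fun L K h => strict_of_cert (by omega) (cert_all h4 h10) hb L K h)
      hκ hE hKb⟩

end Pool.Agent.Results.MP_ebfab8_gt.SharpPinching
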