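import Pool.Agent.K1H56.E3.Main

/-!
# Einstein six-manifolds with 3-nonpositive curvature operator

Let `R` be the curvature tensor of a six-dimensional Riemannian manifold at a point where
`Ric = -5 κ g`, `κ > 0`, and suppose that the sum of the three largest eigenvalues of the curvature
operator is nonpositive (the curvature operator is 3-nonpositive; up to two eigenvalues may be
positive). Then the Gauss-Bonnet-Chern integrand is nonpositive, and if some eigenvalue `ν` is
positive, it is at most `-ν / (36 κ)` times the integrand `roundGB 3 κ` of constant curvature. So a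
closed six-manifold of positive Euler characteristic has no Einstein metric of negative scalar
curvature with 3-nonpositive curvature operator. Mirrored for `Ric = 5 κ g` and 3-nonnegative
curvature operators.

There is no lower bound of the curvature and no bound for the single eigenvalues; for nonpositive
operators the sign is classical, and without the Einstein condition the sign is false pointwise
already for 2-nonpositive operators.

The proof (`Pool/Agent/K1H56/E3/`). Let `h_a` be the fifteen eigenvectors of `-R`, `λ_a` the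
eigenvalues divided by `κ`, and `f_abc = ⟨h_a, [h_b, h_c]⟩²`. From the Einstein condition, the Bianchi
identity and the formulas of `Pool/Agent/TH594/HE/` (starting repository), made exact here,

  `-gbc = roundGB / 90 · (∑ (4 λ_a³ - 15 λ_a² + 25 λ_a) - ∑ λ_a λ_b λ_c f_abc)`,
  `∑_{bc} f_abc = 8`, `∑_{bc} λ_b f_abc = 2 (5 - λ_a)`, `∑ λ_a = 15`.

The right hand side is bounded below by duality: explicit weights `u_a`, `v_a` (polynomials in `λ_a` and
in one parameter `η`, half of the absolute value of the least eigenvalue or the absolute value of the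
sum of the two least ones) turn it into `∑ f_abc Q(λ_a, λ_b, λ_c) / 6`, and `Q ≥ η / 4` is an inequality
for polynomials in three variables, reduced to five polynomials in two variables (`Poly.lean`).
-/

namespace Pool.Agent.Results.MP_ebfab8_gt.ThreeNonpositive

open MeasureTheory
open Pool.Agent.K1H56.E3 Pool.Agent.TH594.HE Pool.Agent.TH594.HP
open Pool.Agent.W666.GB (AlgCurv gbc roundGB CurvField)

/-- Einstein tensors in dimension six with 3-nonpositive or 3-nonnegative curvature operator. -/
theorem result :
    -- the sign at a point, negative version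
    (∀ (V : Type) [NormedAddCommGroup V] [InnerProductSpace ℝ V]
      (e : OrthonormalBasis (Fin 3 × Bool) ℝ V) (R : V → V → V → V → ℝ) (κ : ℝ),
      AlgCurv R → 0 < κ → Einstein e R (-κ) → SumNonpos 3 e R →
        0 ≤ -gbc e R ∧ ∀ A : Fin 3 × Bool → Fin 3 × Bool → ℝ, (∀ i j, A j i = -A i j) →
          1 / 2 * ∑ i, ∑ j, A i j * A i j = 1 →
            roundGB 3 κ * (opq e R A / (36 * κ)) ≤ -gbc e R) ∧
    -- the sign at a point, positive version
    (∀ (V : Type) [NormedAddCommGroup V] [InnerProductSpace ℝ V]
      (e : OrthonormalBasis (Fin 3 × Bool) ℝ V) (R : V → V → V → V → ℝ) (κ : ℝ),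
      AlgCurv R → 0 < κ → Einstein e R κ → SumNonneg 3 e R →
        0 ≤ gbc e R ∧ ∀ A : Fin 3 × Bool → Fin 3 × Bool → ℝ, (∀ i j, A j i = -A i j) →
          1 / 2 * ∑ i, ∑ j, A i j * A i j = 1 →
            roundGB 3 κ * (-opq e R A / (36 * κ)) ≤ gbc e R) ∧
    -- the sign of the integral, negative version
    (∀ (M : Type) [MeasurableSpace M] (μ : Measure M) (K : CurvField 3 M) (κ : ℝ), 0 < κ →
      (∀ p, Einstein (K.e p) (K.R p) (-κ) ∧ SumNonpos 3 (K.e p) (K.R p)) →
        0 ≤ -∫ p, K.gb p ∂μ ∧
          (Integrable K.gb μ → μ {p | ¬ SumNonpos 1 (K.e p) (K.R p)} ≠ 0 →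
            0 < -∫ p, K.gb p ∂μ)) ∧
    -- the sign of the integral, positive version
    (∀ (M : Type) [MeasurableSpace M] (μ : Measure M) (K : CurvField 3 M) (κ : ℝ), 0 < κ →
      (∀ p, Einstein (K.e p) (K.R p) κ ∧ SumNonneg 3 (K.e p) (K.R p)) →
        0 ≤ ∫ p, K.gb p ∂μ ∧
          (Integrable K.gb μ → μ {p | ¬ SumNonneg 1 (K.e p) (K.R p)} ≠ 0 →
            0 < ∫ p, K.gb p ∂μ)) := by
  have hr : ∀ κ : ℝ, 0 < κ → 0 < roundGB 3 κ := by
    intro κ hκ
    unfold roundGB
    have := Real.pi_pos
    positivity
  refine ⟨?_, ?_, ?_, ?_⟩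
  · intro V _ _ e R κ hR hκ hE h3
    exact point_neg e hR hκ hE h3
  · intro V _ _ e R κ hR hκ hE h3
    exact point_pos' e hR hκ hE h3
  · intro M _ μ K κ hκ h
    have h0 : ∀ p, 0 ≤ -K.gb p := fun p => (point_neg (K.e p) (K.curv p) hκ (h p).1 (h p).2).1
    rw [← integral_neg]
    refine ⟨integral_nonneg h0, fun hi hμ => pos_of μ _ h0 hi.neg _ ?_ hμ⟩
    intro p hp
    simp only [Set.mem_ofPred_eq, SumNonpos, not_forall, not_le, exists_prop] at hp
    obtain ⟨A, hA, hp⟩ := hp
    rw [Fin.sum_univ_one] at hp
    have h1 := (point_neg (K.e p) (K.curv p) hκ (h p).1 (h p).2).2 (A 0) (hA.1 0)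
      (by have := hA.2 0 0; rwa [if_pos rfl] at this)
    exact lt_of_lt_of_le (mul_pos (hr κ hκ) (div_pos hp (by positivity))) h1
  · intro M _ μ K κ hκ h
    have h0 : ∀ p, 0 ≤ K.gb p := fun p => (point_pos' (K.e p) (K.curv p) hκ (h p).1 (h p).2).1
    refine ⟨integral_nonneg h0, fun hi hμ => pos_of μ _ h0 hi _ ?_ hμ⟩
    intro p hp
    simp only [Set.mem_ofPred_eq, SumNonneg, not_forall, not_le, exists_prop] at hp
    obtain ⟨A, hA, hp⟩ := hp
    rw [Fin.sum_univ_one] at hp
    have h1 := (point_pos' (K.e p) (K.curv p) hκ (h p).1 (h p).2).2 (A 0) (hA.1 0)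
      (by have := hA.2 0 0; rwa [if_pos rfl] at this)
    exact lt_of_lt_of_le (mul_pos (hr κ hκ) (div_pos (by linarith) (by positivity))) h1

end Pool.Agent.Results.MP_ebfab8_gt.ThreeNonpositive
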