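import Pool.Agent.K1H63.EB.Main

/-!
# Closed Einstein manifolds of positive scalar curvature with an upper curvature bound, all dimensions

Let `(M, g)` be a closed Riemannian manifold of any dimension `n = m + 1` with `Ric = (n - 1) κ g`,
`κ > 0`, all of whose sectional curvatures are at most `1.579 κ` (no lower bound; `κ` is the mean of
the sectional curvatures). Then `(M, g)` has constant curvature `κ`. So a closed manifold of dimension
`n ≥ 5` which is not covered by the sphere has no Einstein metric with `Ric = (n - 1) κ`, `κ > 0` and
`K ≤ 1.579 κ`. The constant does not depend on the dimension.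

Proof. The curvature tensor of an Einstein metric satisfies the Bochner formula
`∫ B = ∫ |∇R|² ≥ 0`, `B = R_{abcd} R_{cdef} R_{efab} + 4 R_{acbd} R_{cedf} R_{eafb}
- 2 (n - 1) κ |R|²`. With `κ = 1`, a negative multiple of `B` is the average over the unit vectors `x`
of `6 (n - 1) ∑ λ_i² - (n + 4) ∑ λ_i³ - 5 ∑ λ_i λ_j K_ij`, where `λ_i` are the eigenvalues of the
Jacobi operator of `x` and `K_ij` are the sectional curvatures of the planes of its eigenvectors. If
`λ_i ≤ 1 + l` and `K_ij ≤ 1 + l` with `l ≤ 0.579`, then `l` times this function is at least
`∑ (λ_i - 1)² (4 + 5 l - λ_i) (1 + l - λ_i) ≥ 0` (the row sums of `K_ij` are known: `x` and the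
eigenvectors form an orthonormal basis; the proof is a dual certificate for a transport problem with
prescribed row sums). So `B ≤ 0` at every point, hence `B = 0`, and the equality case gives `λ_i = 1`.

Modelling. `FrameCalc n P μ` is the differential calculus on the orthonormal frame bundle `P` of a
closed Riemannian manifold of dimension `n`: an algebra `S` of continuous integrable real functions on
`P` (the smooth functions), derivations `H i` of `S` (the canonical horizontal vector fields) and
`V a b` (the fundamental vertical vector fields), and elements `R a b c d` of `S` (the components of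
the curvature tensor in the frame), with the algebraic symmetries of `R`, the second Bianchi identity,
Cartan's structure equation for `[H i, H j]`, the action of `V a b` on `R`, and the divergence theorem
`∫ H i f dμ = 0`. All of these are standard facts for closed Riemannian manifolds (`P` is compact and
`μ` is the natural smooth measure, positive on open sets); that they hold there is not formalised. The
Bochner formula, the averages over the sphere and the eigenframe computation are proved from them in
`Pool/Agent/K1H63/EB/`.
-/

namespace Pool.Agent.Results.MP_ebfab8_gt.UpperPinching

open MeasureTheory Pool.Agent.K1H63.EB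

/-- A closed Einstein manifold of dimension `m + 1` with `Ric = m κ`, `κ > 0` and sectional curvatures
at most `1.579 κ` has constant curvature `κ`. -/
theorem result (m : ℕ) (P : Type) [TopologicalSpace P] [MeasurableSpace P] (μ : Measure P)
    [μ.IsOpenPosMeasure] (F : FrameCalc (m + 1) P μ) (κ : ℝ) (hκ : 0 < κ)
    (hE : ∀ p, IsEinstein (F.T p) (m * κ)) (hK : ∀ p, SecLE (F.T p) (1579 / 1000 * κ)) :
    ∀ p, IsConst (F.T p) κ :=
  F.rigid strict_all hκ hE hK

end Pool.Agent.Results.MP_ebfab8_gt.UpperPinching
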